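import Mathlib

/-!
# RE, block R1: transcendence basis and primitive element of a finitely generated field of complex numbers
-/

set_option autoImplicit false

namespace Pool.Agent.Helper26.RE

open Polynomial

/-- **R1** (algebra): transcendence basis and primitive element -/
theorem prim_basis (T : Finset ℂ) : ∃ (r : ℕ) (t : Fin r → ℂ) (η : ℂ), AlgebraicIndependent ℚ t ∧
    (∀ j, t j ∈ T) ∧ IsAlgebraic (IntermediateField.adjoin ℚ (Set.range t)) η ∧
    η ∈ IntermediateField.adjoin ℚ (T : Set ℂ) ∧
    ∀ z ∈ T, ∃ A : Polynomial (IntermediateField.adjoin ℚ (Set.range t)), aeval η A = z := by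
  classical
  obtain ⟨s, hs⟩ := (AlgebraicIndependent.matroid ℚ ℂ).exists_isBasis (T : Set ℂ)
    (by rw [AlgebraicIndependent.matroid_e]; exact Set.subset_univ _)
  rw [AlgebraicIndependent.matroid_isBasis_iff] at hs
  obtain ⟨hind, hsT, halg⟩ := hs
  have hfin : s.Finite := T.finite_toSet.subset hsT
  obtain ⟨n, t, hinj, hrange⟩ : ∃ (n : ℕ) (t : Fin n → ℂ), Function.Injective t ∧ Set.range t = s := by
    have : Finite s := hfin
    obtain ⟨n, ⟨e⟩⟩ := Finite.exists_equiv_fin s
    refine ⟨n, fun i => (e.symm i : ℂ), fun a b h => e.symm.injective (Subtype.ext h), ?_⟩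
    ext x
    constructor
    · rintro ⟨i, rfl⟩
      exact (e.symm i).2
    · intro hx
      exact ⟨e ⟨x, hx⟩, by simp⟩
  subst hrange
  have ht : AlgebraicIndependent ℚ t := by
    have h1 : AlgebraicIndependent ℚ (fun x : Set.range t => (x : ℂ)) := hind
    have h2 := h1.comp (fun i : Fin n => (⟨t i, i, rfl⟩ : Set.range t))
      (fun a b h => hinj (congrArg Subtype.val h))
    exact h2
  set K := IntermediateField.adjoin ℚ (Set.range t) with hK
  have halg' : ∀ a ∈ (T : Set ℂ), IsIntegral K a := by
    intro a ha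
    have h1 := halg a ha
    let : Algebra (Algebra.adjoin ℚ (Set.range t)) K :=
      (Subalgebra.inclusion (IntermediateField.algebra_adjoin_le_adjoin ℚ (Set.range t))).toRingHom.toAlgebra
    have : IsScalarTower (Algebra.adjoin ℚ (Set.range t)) K ℂ :=
      IsScalarTower.of_algebraMap_eq (congrFun rfl)
    have h2 : IsAlgebraic K a := h1.extendScalars (Subalgebra.inclusion_injective _)
    exact h2.isIntegral
  have : Finite (T : Set ℂ) := T.finite_toSet
  have hfd : FiniteDimensional K (IntermediateField.adjoin K (T : Set ℂ)) :=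
    IntermediateField.finiteDimensional_adjoin halg'
  have hKT : K ≤ IntermediateField.adjoin ℚ (T : Set ℂ) := IntermediateField.adjoin.mono _ _ _ hsT
  have hle : IntermediateField.adjoin K (T : Set ℂ) ≤ IntermediateField.extendScalars hKT := by
    rw [IntermediateField.adjoin_le_iff]
    intro x hx
    exact IntermediateField.subset_adjoin ℚ (T : Set ℂ) hx
  obtain ⟨α, hα⟩ := Field.exists_primitive_element K (IntermediateField.adjoin K (T : Set ℂ))
  refine ⟨n, t, (α : ℂ), ht, fun j => hsT ⟨j, rfl⟩, ?_, ?_, ?_⟩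
  · have h1 : IsAlgebraic K α := Algebra.IsAlgebraic.isAlgebraic α
    exact h1.algebraMap (A := ℂ)
  · exact hle α.2
  · intro z hz
    have hz' : z ∈ IntermediateField.adjoin K (T : Set ℂ) := IntermediateField.subset_adjoin _ _ hz
    have h1 : (⟨z, hz'⟩ : IntermediateField.adjoin K (T : Set ℂ)) ∈ IntermediateField.adjoin K {α} := by
      rw [hα]
      exact IntermediateField.mem_top
    have h2 : IsIntegral K α := Algebra.IsIntegral.isIntegral α
    rw [← IntermediateField.mem_toSubalgebra,
      IntermediateField.adjoin_simple_toSubalgebra_of_isAlgebraic h2.isAlgebraic,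
      Algebra.adjoin_singleton_eq_range_aeval] at h1
    obtain ⟨A, hA⟩ := h1
    refine ⟨A, ?_⟩
    have h3 := congrArg (algebraMap (IntermediateField.adjoin K (T : Set ℂ)) ℂ) hA
    rw [AlgHom.toRingHom_eq_coe, RingHom.coe_coe, ← Polynomial.aeval_algebraMap_apply] at h3
    exact h3

end Pool.Agent.Helper26.RE
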